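import Pool.Agent.TH223.AP.A3
import Pool.Agent.J6H39.ML.Main
import Pool.Agent.Helper791_Cyc.E2

/-! The weak Mertens hypothesis and almost periodicity. -/

set_option autoImplicit false

open MeasureTheory Filter Topology Set

namespace Pool.Agent.J6H91.WMD

open Pool.Agent.TH223.AP
open Pool.Agent.H295R2 (JJ JW ww ee PP Mx)
open Pool.Agent.J6H39.ML (NT ZC JW_lim ZC_of_freq)
open Pool.Agent.W120.WM (msq msq_eq)

/-- the sum over the zeros -/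
noncomputable def SS : ℝ := ∑' ρ : NT, 1 / ‖(ρ : ℂ) * deriv riemannZeta ρ‖ ^ 2

lemma JJ_eq (V : ℝ) : JJ V = JW 0 V := rfl

lemma JJ_lim (h : ZC) : Tendsto (fun V : ℝ => JJ V / V) atTop (𝓝 SS) := JW_lim h

lemma norm_ww (ρ : ℂ) : ‖ww ρ‖ ^ 2 = 1 / ‖ρ * deriv riemannZeta ρ‖ ^ 2 := by
  unfold ww
  rw [norm_div, norm_one, div_pow, one_pow]

lemma msq_one {x : ℝ} (hx : 1 ≤ x) : msq 1 x = JJ (Real.log x) := by
  rw [msq_eq one_pos hx, Real.log_one]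
  rfl

/-- convergence of the mean square distance to finite partial sums -/
theorem dist (h : ZC) (Z : Finset ℂ) (hZ : ∀ ρ ∈ Z, ρ ∈ NT) :
    Tendsto (mn fun v => ‖((ft v : ℝ) : ℂ) - ∑ ρ ∈ Z, ww ρ * ee ρ v‖ ^ 2) atTop
      (𝓝 (SS - ∑ ρ ∈ Z, ‖ww ρ‖ ^ 2)) :=
  dist_lim (JJ_lim h) Z fun ρ hρ => ⟨(h.1 ρ (hZ ρ hρ)).1, (hZ ρ hρ).1, (h.1 ρ (hZ ρ hρ)).2⟩

/-- finite sums exhaust `SS` -/
theorem exhaust (h : ZC) {ε : ℝ} (hε : 0 < ε) : ∃ Z : Finset ℂ, (∀ ρ ∈ Z, ρ ∈ NT) ∧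
    SS - ∑ ρ ∈ Z, ‖ww ρ‖ ^ 2 < ε := by
  classical
  have h1 : HasSum (fun ρ : NT => 1 / ‖(ρ : ℂ) * deriv riemannZeta ρ‖ ^ 2) SS := h.2.hasSum
  have h2 : ∀ᶠ u : Finset NT in atTop, SS - ε < ∑ ρ ∈ u, 1 / ‖(ρ : ℂ) * deriv riemannZeta ρ‖ ^ 2 :=
    h1.eventually (lt_mem_nhds (by linarith))
  obtain ⟨u, hu⟩ := h2.exists
  refine ⟨u.map (Function.Embedding.subtype _), fun ρ hρ => ?_, ?_⟩
  · rw [Finset.mem_map] at hρ
    obtain ⟨ρ', -, rfl⟩ := hρ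
    exact ρ'.2
  · rw [Finset.sum_map]
    simp only [norm_ww, Function.Embedding.subtype_apply]
    linarith

lemma half_ne {ρ : ℂ} (h : ρ = ((1 / 2 : ℝ) : ℂ)) (hz : riemannZeta ρ = 0) : False := by
  rw [h] at hz
  exact Pool.Agent.Helper791.Cyc.zeta_real_ne (1 / 2) (by norm_num) (by norm_num) hz

/-- the approximation with frequencies different from zero -/
theorem approx (h : ZC) {ε : ℝ} (hε : 0 < ε) : ∃ (K : Finset ℝ) (a : ℝ → ℂ), (0 : ℝ) ∉ K ∧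
    ∀ᶠ V : ℝ in atTop, mn (fun v => ‖((ft v : ℝ) : ℂ) - trig K a v‖ ^ 2) V ≤ ε := by
  classical
  obtain ⟨Z, hZ, hlt⟩ := exhaust h hε
  have hre : ∀ ρ ∈ Z, ρ.re = 1 / 2 := fun ρ hρ => (h.1 ρ (hZ ρ hρ)).1
  refine ⟨Z.image Complex.im, fun l => ww (⟨1 / 2, l⟩ : ℂ), ?_, ?_⟩
  · intro h0
    rw [Finset.mem_image] at h0
    obtain ⟨ρ, hρ, him⟩ := h0
    have h2 : ρ = ((1 / 2 : ℝ) : ℂ) := by
      apply Complex.ext
      · rw [hre ρ hρ, Complex.ofReal_re]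
      · rw [him, Complex.ofReal_im]
    exact half_ne h2 (hZ ρ hρ).1
  · have h1 := (dist h Z hZ).eventually (gt_mem_nhds hlt)
    filter_upwards [h1] with V hV
    refine le_of_eq_of_le ?_ hV.le
    congr 1
    funext v
    rw [sum_trig Z hre v]

theorem b2 (h : ZC) : B2 ft := fun ε hε => by
  obtain ⟨K, a, -, h1⟩ := approx h hε
  exact ⟨K, a, h1⟩

/-- bounded mean square on a sparse set suffices -/
theorem zc_of_freq {C : ℝ} (h : ∃ᶠ V : ℝ in atTop, JJ V ≤ C * V) : ZC := by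
  refine ZC_of_freq one_pos le_rfl (C := C) ?_
  have h1 : ∃ᶠ V : ℝ in atTop, JJ V ≤ C * V ∧ 0 ≤ V := h.and_eventually (eventually_ge_atTop 0)
  have h2 : Tendsto Real.exp atTop atTop := Real.tendsto_exp_atTop
  refine h2.frequently (h1.mono fun V hV => ?_)
  rw [sub_self, Real.rpow_zero, msq_one (Real.one_le_exp hV.2), Real.log_exp]
  exact hV.1

theorem zc_of_b2 (h : B2 ft) : ZC := by
  obtain ⟨C, hC0, hC⟩ := h.second ft_LB
  refine zc_of_freq (C := C) (Eventually.frequently ?_)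
  filter_upwards [eventually_ge_atTop 1] with V hV
  have h1 := hC V hV
  rw [mn_sq (by linarith), div_le_iff₀ (by linarith)] at h1
  exact h1

/-- `μ` is the limiting law, with test functions of quadratic growth -/
def Lim (f : ℝ → ℝ) (μ : ProbabilityMeasure ℝ) : Prop :=
  ∀ φ : ℝ → ℝ, Continuous φ → (∃ C : ℝ, ∀ t, |φ t| ≤ C * (1 + t ^ 2)) →
    Integrable φ (μ : Measure ℝ) ∧
      Tendsto (mn fun v => φ (f v)) atTop (𝓝 (∫ t, φ t ∂(μ : Measure ℝ)))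

theorem lim_of_zc (h : ZC) : ∃ μ : ProbabilityMeasure ℝ, Lim ft μ := by
  obtain ⟨μ, hμ⟩ := exists_law (b2 h) ft_LB
  exact ⟨μ, fun φ hφ ⟨C, hC⟩ => limit_quad (b2 h) hμ hφ hC⟩

theorem zc_of_lim {μ : ProbabilityMeasure ℝ} (h : Lim ft μ) : ZC := by
  obtain ⟨-, h1⟩ := h (fun t => t ^ 2) (by fun_prop) ⟨1, fun t => by
    rw [abs_of_nonneg (sq_nonneg t)]
    linarith⟩
  obtain ⟨L, hL⟩ : ∃ L : ℝ, L = ∫ t, t ^ 2 ∂(μ : Measure ℝ) := ⟨_, rfl⟩
  rw [← hL] at h1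
  refine zc_of_freq (C := L + 1) (Eventually.frequently ?_)
  filter_upwards [h1.eventually (gt_mem_nhds (lt_add_one L)), eventually_gt_atTop 0] with V hV hV0
  rw [mn_sq hV0.le, div_lt_iff₀ hV0] at hV
  exact hV.le

theorem second (h : ZC) {μ : ProbabilityMeasure ℝ} (hμ : Lim ft μ) :
    ∫ t, t ^ 2 ∂(μ : Measure ℝ) = SS := by
  obtain ⟨-, h1⟩ := hμ (fun t => t ^ 2) (by fun_prop) ⟨1, fun t => by
    rw [abs_of_nonneg (sq_nonneg t)]
    linarith⟩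
  refine tendsto_nhds_unique h1 ((JJ_lim h).congr' ?_)
  filter_upwards [eventually_ge_atTop 0] with V hV
  rw [mn_sq hV]

theorem mean_zero (h : ZC) : Tendsto (mn ft) atTop (𝓝 0) := by
  rw [Metric.tendsto_nhds]
  intro e he
  obtain ⟨η, hη⟩ : ∃ η : ℝ, η = e / 4 := ⟨_, rfl⟩
  have hη0 : 0 < η := by rw [hη]; positivity
  obtain ⟨K, a, h0, h1⟩ := approx h (pow_pos hη0 2)
  have h2 := Metric.tendsto_nhds.1 (mean_trig_zero h0 a) η hη0
  filter_upwards [h1, h2, eventually_gt_atTop (0:ℝ)] with V h3 h4 hV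
  rw [Real.dist_eq, sub_zero] at h4 ⊢
  have hsub := ft_LB.sub (LB.of_cont (rt_cont K a))
  have hk : LB (fun v => (1 / (2 * η)) * (ft v - rt K a v) ^ 2 + η / 2) :=
    (hsub.sq.const_mul _).add (LB.of_cont continuous_const)
  have h5 := abs_mn_sub_le (g := ft) (h := rt K a) hV (ft_LB.ii hV.le)
    ((LB.of_cont (rt_cont K a)).ii hV.le) (hk.ii hV.le) (fun v _ => by
      rw [← sq_abs (ft v - rt K a v)]
      have h6 : (1 / (2 * η) * |ft v - rt K a v| ^ 2 + η / 2) - |ft v - rt K a v| =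
          (|ft v - rt K a v| - η) ^ 2 / (2 * η) := by
        field_simp
        ring
      have h7 : 0 ≤ (|ft v - rt K a v| - η) ^ 2 / (2 * η) := by positivity
      linarith)
  rw [mn_add ((hsub.sq.const_mul _).ii hV.le) (continuous_const.intervalIntegrable _ _), mn_const_mul,
    mn_const _ hV] at h5
  have h8 : mn (fun v => (ft v - rt K a v) ^ 2) V ≤ η ^ 2 := by
    refine (mn_mono hV (hsub.sq.ii hV.le)
      ((ft_LB.normsq (trig_cont K a)).ii hV.le) (fun v _ => ?_)).trans h3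
    rw [norm_sub_sq]
    have := sq_nonneg (trig K a v).im
    show (ft v - (trig K a v).re) ^ 2 ≤ _
    linarith
  have h9 : 1 / (2 * η) * mn (fun v => (ft v - rt K a v) ^ 2) V ≤ 1 / (2 * η) * η ^ 2 := by
    gcongr
  have h10 : 1 / (2 * η) * η ^ 2 = η / 2 := by
    field_simp
  have h11 := abs_le.1 (h5)
  rw [abs_lt] at h4 ⊢
  constructor <;> linarith [h11.1, h11.2, h4.1, h4.2]

theorem first (h : ZC) {μ : ProbabilityMeasure ℝ} (hμ : Lim ft μ) :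
    Integrable (fun t : ℝ => t) (μ : Measure ℝ) ∧ ∫ t, t ∂(μ : Measure ℝ) = 0 := by
  obtain ⟨h0, h1⟩ := hμ (fun t => t) continuous_id ⟨1, fun t => by
    rw [abs_le]
    constructor <;> nlinarith [sq_nonneg (t - 1), sq_nonneg (t + 1)]⟩
  exact ⟨h0, tendsto_nhds_unique h1 (mean_zero h)⟩

theorem SS_pos (h : ZC) : 0 < SS := by
  obtain ⟨ρ, hz, h1, h2, -, -⟩ := H332.FL.exists_zero_re_ge_half 0
  have hρ : ρ ∈ NT := ⟨hz, by linarith, h2⟩
  have h3 := h.2.le_tsum ⟨ρ, hρ⟩ (fun ρ' _ => by positivity)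
  refine lt_of_lt_of_le ?_ h3
  have h4 : ρ ≠ 0 := fun h0 => by
    rw [h0, Complex.zero_re] at h1
    norm_num at h1
  have h5 := (h.1 ρ hρ).2
  have h6 : 0 < ‖ρ * deriv riemannZeta ρ‖ := norm_pos_iff.2 (mul_ne_zero h4 h5)
  positivity

end Pool.Agent.J6H91.WMD
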