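import Pool.Agent.J6H91.WMD.A

/-! Both signs have positive density. -/

set_option autoImplicit false

open MeasureTheory Filter Topology Set

namespace Pool.Agent.J6H91.WMD

open Pool.Agent.TH223.AP
open Pool.Agent.J6H39.ML (NT ZC)

/-- bounded test function -/
noncomputable def tst (s c t : ℝ) : ℝ := min 1 (max 0 (s * t - c))

lemma tst_cont (s c : ℝ) : Continuous (tst s c) := by
  unfold tst
  fun_prop

lemma tst_nonneg (s c t : ℝ) : 0 ≤ tst s c t := le_min zero_le_one (le_max_left _ _)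

lemma tst_le (s c t : ℝ) : tst s c t ≤ 1 := min_le_left _ _

lemma tst_pos {s c t : ℝ} : 0 < tst s c t ↔ c < s * t := by
  unfold tst
  rw [lt_min_iff, lt_max_iff]
  constructor
  · rintro ⟨-, h | h⟩
    · exact absurd h (lt_irrefl _)
    · linarith
  · exact fun h => ⟨one_pos, Or.inr (by linarith)⟩

lemma exists_c {μ : ProbabilityMeasure ℝ} (h1 : Integrable (fun t : ℝ => t) (μ : Measure ℝ))
    (h0 : ∫ t, t ∂(μ : Measure ℝ) = 0) (h2 : 0 < ∫ t, t ^ 2 ∂(μ : Measure ℝ)) {s : ℝ}
    (hs : s = 1 ∨ s = -1) : ∃ c : ℝ, 0 < c ∧ 0 < ∫ t, tst s c t ∂(μ : Measure ℝ) := by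
  have hI : Integrable (fun t : ℝ => s * t) (μ : Measure ℝ) := h1.const_mul s
  have hP : Integrable (fun t : ℝ => max 0 (s * t)) (μ : Measure ℝ) := by
    have h := hI.pos_part
    refine h.congr (Eventually.of_forall fun t => ?_)
    simp [max_comm]
  have hs0 : ∫ t, s * t ∂(μ : Measure ℝ) = 0 := by rw [integral_const_mul, h0, mul_zero]
  have hpos : 0 < ∫ t, max 0 (s * t) ∂(μ : Measure ℝ) := by
    rcases (integral_nonneg (fun t : ℝ => le_max_left 0 (s * t)) : 0 ≤ ∫ t, max 0 (s * t) ∂(μ : Measure ℝ)).lt_or_eq with h | h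
    · exact h
    exfalso
    -- the negative part has integral zero too
    have h3 : ∫ t, (max 0 (s * t) - s * t) ∂(μ : Measure ℝ) = 0 := by
      rw [integral_sub hP hI, ← h, hs0, sub_zero]
    have h4 := (integral_eq_zero_iff_of_nonneg (fun t : ℝ => le_max_left 0 (s * t)) hP).1 h.symm
    have h5 := (integral_eq_zero_iff_of_nonneg (fun t : ℝ => sub_nonneg.2 (le_max_right 0 (s * t)))
      (hP.sub hI)).1 h3
    have h6 : (fun t : ℝ => t ^ 2) =ᵐ[(μ : Measure ℝ)] fun _ => 0 := by
      filter_upwards [h4, h5] with t h7 h8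
      simp only [Pi.zero_apply] at h7 h8
      have h9 : s * t = 0 := by linarith
      have h10 : t = 0 := by
        rcases hs with rfl | rfl
        · linarith
        · linarith
      rw [h10]
      norm_num
    rw [integral_congr_ae h6, integral_zero] at h2
    exact lt_irrefl _ h2
  obtain ⟨p, hp⟩ : ∃ p : ℝ, p = ∫ t, max 0 (s * t) ∂(μ : Measure ℝ) := ⟨_, rfl⟩
  rw [← hp] at hpos
  refine ⟨p / 2, by positivity, ?_⟩
  have hT : Integrable (tst s (p / 2)) (μ : Measure ℝ) := by
    refine Integrable.mono' (integrable_const (1 : ℝ)) (tst_cont _ _).aestronglyMeasurable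
      (Eventually.of_forall fun t => ?_)
    rw [Real.norm_of_nonneg (tst_nonneg _ _ _)]
    exact tst_le _ _ _
  rw [integral_pos_iff_support_of_nonneg (fun t => tst_nonneg _ _ _) hT]
  by_contra hcon
  have hz : (μ : Measure ℝ) (Function.support (tst s (p / 2))) = 0 := by simpa using hcon
  have h3 : ∀ᵐ t ∂(μ : Measure ℝ), max 0 (s * t) ≤ p / 2 := by
    have h4 : ∀ᵐ t ∂(μ : Measure ℝ), t ∉ Function.support (tst s (p / 2)) := by
      rw [ae_iff]
      simp only [not_not]
      exact hz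
    filter_upwards [h4] with t ht
    rw [Function.mem_support, not_not] at ht
    have h5 : ¬ p / 2 < s * t := fun h => by
      have := tst_pos.2 h
      linarith
    exact max_le (by positivity) (not_lt.1 h5)
  have h4 : p ≤ p / 2 := by
    have h5 := integral_mono_ae hP (integrable_const (p / 2)) h3
    rw [← hp] at h5
    simpa using h5
  linarith

/-- both signs have positive lower density -/
theorem density (h : ZC) {s : ℝ} (hs : s = 1 ∨ s = -1) : ∃ c η : ℝ, 0 < c ∧ 0 < η ∧
    ∀ᶠ V : ℝ in atTop, η * V ≤ volume.real {v : ℝ | v ∈ Ioc 0 V ∧ c < s * ft v} := by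
  obtain ⟨μ, hμ⟩ := lim_of_zc h
  obtain ⟨h1, h0⟩ := first h hμ
  have h2 : 0 < ∫ t, t ^ 2 ∂(μ : Measure ℝ) := by rw [second h hμ]; exact SS_pos h
  obtain ⟨c, hc, hc2⟩ := exists_c h1 h0 h2 hs
  obtain ⟨q, hq⟩ : ∃ q : ℝ, q = ∫ t, tst s c t ∂(μ : Measure ℝ) := ⟨_, rfl⟩
  rw [← hq] at hc2
  refine ⟨c, q / 2, hc, by positivity, ?_⟩
  obtain ⟨-, h3⟩ := hμ (tst s c) (tst_cont s c) ⟨1, fun t => by
    rw [abs_of_nonneg (tst_nonneg _ _ _)]
    nlinarith [tst_le s c t, sq_nonneg t]⟩
  rw [← hq] at h3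
  filter_upwards [h3.eventually (lt_mem_nhds (half_lt_self hc2)), eventually_gt_atTop (0:ℝ)] with V hV hV0
  unfold mn at hV
  rw [lt_div_iff₀ hV0, intervalIntegral.integral_of_le hV0.le] at hV
  refine hV.le.trans ?_
  have hms : MeasurableSet {v : ℝ | c < s * ft v} :=
    measurableSet_lt measurable_const (ft_LB.meas.const_mul s)
  have h4 : ∫ v in Ioc 0 V, tst s c (ft v) ≤ ∫ v in Ioc 0 V, {v : ℝ | c < s * ft v}.indicator (fun _ => (1:ℝ)) v := by
    refine setIntegral_mono_on ?_ ?_ measurableSet_Ioc fun v _ => ?_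
    · exact (intervalIntegrable_iff_integrableOn_Ioc_of_le hV0.le).1 ((ft_LB.comp (tst_cont s c)).ii hV0.le)
    · exact (integrable_const (1:ℝ)).indicator hms
    · by_cases hv : c < s * ft v
      · rw [indicator_of_mem (by exact hv)]
        exact tst_le _ _ _
      · rw [indicator_of_notMem (by exact hv)]
        exact not_lt.1 fun h => hv (tst_pos.1 h)
  refine h4.trans (le_of_eq ?_)
  rw [setIntegral_indicator hms, setIntegral_const, smul_eq_mul, mul_one]
  rfl

end Pool.Agent.J6H91.WMD
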