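import Pool.Agent.J6H91.WMD.B

/-! The results in the variable `x = e^v`. -/

set_option autoImplicit false

open MeasureTheory Filter Topology Set

namespace Pool.Agent.J6H91.WMD

open Pool.Agent.TH223.AP
open Pool.Agent.J6H39.ML (NT ZC)
open Pool.Agent.H295R2 (JJ ww ee)

/-- the logarithmic mean `(1 / log X) ∫_1^X g(x) dx / x` -/
noncomputable def logMean (g : ℝ → ℝ) (X : ℝ) : ℝ := (∫ x in (1:ℝ)..X, g x / x) / Real.log X

lemma exp_image {L : ℝ} : Real.exp '' Ioc 0 L = Ioc 1 (Real.exp L) := by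
  ext x
  constructor
  · rintro ⟨v, hv, rfl⟩
    exact ⟨Real.one_lt_exp_iff.2 hv.1, Real.exp_le_exp.2 hv.2⟩
  · rintro ⟨h1, h2⟩
    have h0 : 0 < x := by linarith
    exact ⟨Real.log x, ⟨Real.log_pos h1, (Real.log_le_iff_le_exp h0).2 h2⟩, Real.exp_log h0⟩

lemma cov (g : ℝ → ℝ) {X : ℝ} (hX : 1 ≤ X) :
    ∫ x in (1:ℝ)..X, g x / x = ∫ v in (0:ℝ)..Real.log X, g (Real.exp v) := by
  have h0 : 0 < X := by linarith
  rw [intervalIntegral.integral_of_le hX, intervalIntegral.integral_of_le (Real.log_nonneg hX)]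
  have h1 := integral_image_eq_integral_abs_deriv_smul (s := Ioc 0 (Real.log X)) measurableSet_Ioc
    (fun v _ => (Real.hasDerivAt_exp v).hasDerivWithinAt) (Real.exp_injective.injOn) (fun x => g x / x)
  rw [exp_image, Real.exp_log h0] at h1
  rw [h1]
  refine integral_congr_ae (Eventually.of_forall fun v => ?_)
  simp only
  rw [abs_of_pos (Real.exp_pos v), smul_eq_mul, mul_div_assoc']
  field_simp

lemma logMean_eq (g : ℝ → ℝ) {X : ℝ} (hX : 1 ≤ X) :
    logMean g X = mn (fun v => g (Real.exp v)) (Real.log X) := by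
  unfold logMean mn
  rw [cov g hX]

lemma tendsto_iff {g : ℝ → ℝ} {l : Filter ℝ} :
    Tendsto (logMean g) atTop l ↔ Tendsto (mn fun v => g (Real.exp v)) atTop l := by
  constructor
  · intro h
    refine (h.comp Real.tendsto_exp_atTop).congr' ?_
    filter_upwards [eventually_ge_atTop (0:ℝ)] with V hV
    show logMean g (Real.exp V) = _
    rw [logMean_eq g (Real.one_le_exp hV), Real.log_exp]
  · intro h
    refine (h.comp Real.tendsto_log_atTop).congr' ?_
    filter_upwards [eventually_ge_atTop (1:ℝ)] with X hX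
    exact (logMean_eq g hX).symm

lemma eventually_iff' {p : ℝ → Prop} {g : ℝ → ℝ} :
    (∀ᶠ X : ℝ in atTop, p (logMean g X)) ↔ ∀ᶠ V : ℝ in atTop, p (mn (fun v => g (Real.exp v)) V) := by
  constructor
  · intro h
    filter_upwards [Real.tendsto_exp_atTop.eventually h, eventually_ge_atTop (0:ℝ)] with V h1 hV
    rwa [logMean_eq g (Real.one_le_exp hV), Real.log_exp] at h1
  · intro h
    filter_upwards [Real.tendsto_log_atTop.eventually h, eventually_ge_atTop (1:ℝ)] with X h1 hX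
    rwa [logMean_eq g hX]

/-- `M(x) / √x` -/
noncomputable def fx (x : ℝ) : ℝ :=
  (∑ n ∈ Finset.Icc 1 ⌊x⌋₊, ((ArithmeticFunction.moebius n : ℤ) : ℝ)) / Real.sqrt x

lemma fx_exp (v : ℝ) : fx (Real.exp v) = ft v := by
  unfold fx ft
  rw [div_eq_mul_inv]
  congr 1
  rw [Real.sqrt_eq_rpow, ← Real.exp_mul, ← Real.exp_neg]
  congr 1
  ring

lemma cpow_exp (l v : ℝ) : ((Real.exp v : ℝ) : ℂ) ^ (Complex.I * l) = Complex.exp (Complex.I * l * v) := by
  rw [Complex.ofReal_exp, Complex.cpow_def_of_ne_zero (Complex.exp_ne_zero _), Complex.log_exp]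
  · congr 1
    ring
  · simp [Real.pi_pos]
  · simp [Real.pi_nonneg]

lemma cpow_ee {ρ : ℂ} (v : ℝ) : ((Real.exp v : ℝ) : ℂ) ^ (ρ - 1 / 2) = ee ρ v := by
  unfold ee
  rw [Complex.ofReal_exp, Complex.cpow_def_of_ne_zero (Complex.exp_ne_zero _), Complex.log_exp]
  · congr 1
    ring
  · simp [Real.pi_pos]
  · simp [Real.pi_nonneg]

/-- Besicovitch almost periodicity, in the variable `x` -/
def BAP (g : ℝ → ℝ) : Prop := ∀ ε : ℝ, 0 < ε → ∃ (K : Finset ℝ) (a : ℝ → ℂ), ∀ᶠ X : ℝ in atTop,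
  logMean (fun x => ‖(g x : ℂ) - ∑ l ∈ K, a l * (x : ℂ) ^ (Complex.I * l)‖ ^ 2) X ≤ ε

lemma bap_iff : BAP fx ↔ B2 ft := by
  unfold BAP B2
  refine forall_congr' fun ε => forall_congr' fun _ => exists_congr fun K => exists_congr fun a => ?_
  rw [eventually_iff' (p := fun t => t ≤ ε)]
  refine eventually_congr (Eventually.of_forall fun V => ?_)
  have h : (fun v => ‖((fx (Real.exp v) : ℝ) : ℂ) - ∑ l ∈ K, a l * ((Real.exp v : ℝ) : ℂ) ^ (Complex.I * l)‖ ^ 2)
      = fun v => ‖((ft v : ℝ) : ℂ) - trig K a v‖ ^ 2 := by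
    funext v
    rw [fx_exp]
    congr 3
    unfold trig
    refine Finset.sum_congr rfl fun l _ => ?_
    rw [cpow_exp]
  rw [h]

/-- the limiting distribution, in the variable `x` -/
def LimX (g : ℝ → ℝ) (μ : ProbabilityMeasure ℝ) : Prop :=
  ∀ φ : ℝ → ℝ, Continuous φ → (∃ C : ℝ, ∀ t, |φ t| ≤ C * (1 + t ^ 2)) →
    Integrable φ (μ : Measure ℝ) ∧
      Tendsto (logMean fun x => φ (g x)) atTop (𝓝 (∫ t, φ t ∂(μ : Measure ℝ)))

lemma limX_iff {μ : ProbabilityMeasure ℝ} : LimX fx μ ↔ Lim ft μ := by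
  unfold LimX Lim
  refine forall_congr' fun φ => forall_congr' fun _ => forall_congr' fun _ => ?_
  rw [tendsto_iff]
  simp only [fx_exp]

lemma lim_unique {μ ν : ProbabilityMeasure ℝ} (h1 : LimX fx μ) (h2 : LimX fx ν) : μ = ν := by
  apply Subtype.ext
  show (μ : Measure ℝ) = (ν : Measure ℝ)
  refine ext_of_forall_integral_eq_of_IsFiniteMeasure fun φ => ?_
  have hb : ∃ C : ℝ, ∀ t, |φ t| ≤ C * (1 + t ^ 2) := ⟨‖φ‖, fun t => by
    have h3 := φ.norm_coe_le_norm t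
    rw [Real.norm_eq_abs] at h3
    nlinarith [norm_nonneg φ, sq_nonneg t, mul_nonneg (norm_nonneg φ) (sq_nonneg t)]⟩
  exact tendsto_nhds_unique (h1 φ φ.continuous hb).2 (h2 φ φ.continuous hb).2

lemma partial_x (h : ZC) (Z : Finset NT) :
    Tendsto (logMean fun x => ‖((fx x : ℝ) : ℂ) - ∑ ρ ∈ Z, (x : ℂ) ^ ((ρ : ℂ) - 1 / 2) /
      ((ρ : ℂ) * deriv riemannZeta ρ)‖ ^ 2) atTop
      (𝓝 (SS - ∑ ρ ∈ Z, 1 / ‖(ρ : ℂ) * deriv riemannZeta ρ‖ ^ 2)) := by
  rw [tendsto_iff]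
  have h1 := dist h (Z.map (Function.Embedding.subtype _)) (fun ρ hρ => by
    rw [Finset.mem_map] at hρ
    obtain ⟨ρ', -, rfl⟩ := hρ
    exact ρ'.2)
  simp only [Finset.sum_map, Function.Embedding.subtype_apply, norm_ww] at h1
  refine h1.congr fun V => ?_
  congr 1
  funext v
  rw [fx_exp]
  congr 3
  refine Finset.sum_congr rfl fun ρ _ => ?_
  rw [cpow_ee]
  unfold ww
  ring

/-- the logarithmic measure of the set where `s M(x) > c √x` -/
lemma density_x (h : ZC) {s : ℝ} (hs : s = 1 ∨ s = -1) : ∃ c η : ℝ, 0 < c ∧ 0 < η ∧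
    ∀ᶠ X : ℝ in atTop, η ≤ logMean ({x : ℝ | c < s * fx x}.indicator fun _ => 1) X := by
  obtain ⟨c, η, hc, hη, h1⟩ := density h hs
  refine ⟨c, η, hc, hη, ?_⟩
  rw [eventually_iff' (p := fun t => η ≤ t)]
  filter_upwards [h1, eventually_gt_atTop (0:ℝ)] with V h2 hV
  unfold mn
  rw [le_div_iff₀ hV]
  refine h2.trans (le_of_eq ?_)
  have hms : MeasurableSet {v : ℝ | c < s * ft v} :=
    measurableSet_lt measurable_const (ft_LB.meas.const_mul s)
  rw [intervalIntegral.integral_of_le hV.le]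
  have h3 : ∀ v : ℝ, ({x : ℝ | c < s * fx x}.indicator (fun _ => (1:ℝ))) (Real.exp v) =
      {v : ℝ | c < s * ft v}.indicator (fun _ => (1:ℝ)) v := by
    intro v
    simp only [indicator, Set.mem_ofPred_eq, fx_exp]
  simp only [h3]
  rw [setIntegral_indicator hms, setIntegral_const, smul_eq_mul, mul_one]
  rfl

lemma moments_x (h : ZC) {μ : ProbabilityMeasure ℝ} (hμ : LimX fx μ) :
    ∫ t, t ∂(μ : Measure ℝ) = 0 ∧ ∫ t, t ^ 2 ∂(μ : Measure ℝ) = SS ∧ 0 < SS :=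
  ⟨(first h (limX_iff.1 hμ)).2, second h (limX_iff.1 hμ), SS_pos h⟩

end Pool.Agent.J6H91.WMD
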